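import Pool.Agent.Y52.SJ.Stm

/-!
# SJ-NFP: normal position by pull back
-/

set_option autoImplicit false

namespace Pool.Agent.Y151.SJ.Nfp

open Pool.Agent.Y52.SJ

section
variable {V : Type} [NormedAddCommGroup V] [InnerProductSpace ℝ V]

theorem om_self {J : V →L[ℝ] V} (hJ : IsCS J) (x : V) : om J x (J x) = ‖x‖ ^ 2 := by
  unfold om
  rw [hJ.2, real_inner_self_eq_norm_sq]

theorem inj {J P : V →L[ℝ] V} {s : ℝ} (hJ : IsCS J) (hs : 0 < s) (hP : Conf J P s) :
    Function.Injective P := by
  rw [injective_iff_map_eq_zero]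
  intro x hx
  have h := hP x (J x)
  rw [hx, om_self hJ] at h
  have h0 : om J 0 (P (J x)) = 0 := by simp [om]
  rw [h0] at h
  have h2 : ‖x‖ ^ 2 = 0 := by
    rcases mul_eq_zero.mp h.symm with h1 | h1
    · exact absurd h1 hs.ne'
    · exact h1
  exact norm_eq_zero.mp ((pow_eq_zero_iff two_ne_zero).mp h2)
end

/-- NFP -/
theorem main : S_NFP := by
  intro V _ _ _ J hJ C hC hconv P b s hs hP hb hmax
  have hinj := inj hJ hs hP
  let e : V ≃ₗ[ℝ] V := LinearEquiv.ofInjectiveEndo (P : V →ₗ[ℝ] V) hinj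
  let Q : V →L[ℝ] V := LinearMap.toContinuousLinearMap (e.symm : V →ₗ[ℝ] V)
  have he : ∀ x, e x = P x := fun x => rfl
  have hQe : ∀ x, Q x = e.symm x := fun x => rfl
  have hQP : ∀ x, Q (P x) = x := fun x => by
    rw [hQe, ← he, LinearEquiv.symm_apply_apply]
  have hPQ : ∀ x, P (Q x) = x := fun x => by
    rw [hQe, ← he, LinearEquiv.apply_symm_apply]
  refine ⟨⟨?_, ?_, hb, ?_⟩, Q, ?_, hQP, hPQ⟩
  · intro x hx y hy α β hα hβ hαβ
    have h := hconv hx hy hα hβ hαβ
    have h2 : b + P (α • x + β • y) = α • (b + P x) + β • (b + P y) := by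
      rw [map_add, map_smul, map_smul, smul_add, smul_add]
      have h3 : b = α • b + β • b := by rw [← add_smul, hαβ, one_smul]
      nth_rewrite 1 [h3]
      abel
    change b + P (α • x + β • y) ∈ C
    rw [h2]
    exact h
  · have h : {x | b + P x ∈ C} = (fun y => Q (y - b)) '' C := by
      ext x
      constructor
      · intro hx
        refine ⟨b + P x, hx, ?_⟩
        change Q (b + P x - b) = x
        rw [add_sub_cancel_left, hQP]
      · rintro ⟨y, hy, rfl⟩
        change b + P (Q (y - b)) ∈ C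
        rw [hPQ, add_sub_cancel]
        exact hy
    rw [h]
    exact hC.image (by fun_prop)
  · intro P' b' s' hP' hb'
    have h1 : Conf J (P.comp P') (s * s') := by
      intro x y
      change om J (P (P' x)) (P (P' y)) = _
      rw [hP, hP', mul_assoc]
    have h2 := hmax (P.comp P') (b + P b') (s * s') h1 (fun x hx => by
      have h3 := hb' x hx
      change b + P (b' + P' x) ∈ C at h3
      rw [map_add] at h3
      change b + P b' + P (P' x) ∈ C
      rw [add_assoc]
      exact h3)
    have h4 : s * s' ≤ s * 1 := by rw [mul_one]; exact h2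
    exact le_of_mul_le_mul_left h4 hs
  · intro x y
    have h := hP (Q x) (Q y)
    rw [hPQ, hPQ] at h
    rw [h, ← mul_assoc, inv_mul_cancel₀ hs.ne', one_mul]

end Pool.Agent.Y151.SJ.Nfp
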